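import Mathlib
import Pool.Agent.Q145.ART.Stm

set_option autoImplicit false

/-! # ART-BCH: few bad conductors -/

namespace Pool.Agent.Q145.ART

open Finset

open scoped Classical in
lemma bch_low (E : Finset ℕ) (V : ℝ) (hV : 0 ≤ V) (M x ρ : ℕ) (c : ℕ → ℂ)
    (h : ∀ (q : ℕ) (χ : DirichletCharacter ℂ q), (∑ m ∈ E, χ (m : ZMod q)) ^ ρ =
        ∑ n ∈ Icc 1 M, c n * χ (n : ZMod q)) :
    (((Icc 2 (x ^ 2)).filter (fun r => ¬ CB E V r)).card : ℝ) * V ^ (2 * ρ) ≤
      6 * ((M : ℝ) + (x : ℝ) ^ 4) * ∑ n ∈ Icc 1 M, ‖c n‖ ^ 2 := by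
  have h1 := Helper112.mult_large_sieve M (x ^ 2) c
  have e1 : ((x ^ 2 : ℕ) : ℝ) ^ 2 = (x : ℝ) ^ 4 := by
    push_cast
    ring
  rw [e1] at h1
  refine le_trans ?_ h1
  set S := (Icc 2 (x ^ 2)).filter (fun r => ¬ CB E V r) with hS
  calc (S.card : ℝ) * V ^ (2 * ρ) = ∑ _r ∈ S, V ^ (2 * ρ) := by
        rw [sum_const, nsmul_eq_mul]
    _ ≤ ∑ f ∈ S, ((f : ℝ) / (Nat.totient f : ℝ)) *
        ∑ χ ∈ (univ : Finset (DirichletCharacter ℂ f)).filter (fun χ => χ.IsPrimitive),
          ‖∑ n ∈ Icc 1 M, c n * χ (n : ZMod f)‖ ^ 2 := by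
        apply sum_le_sum
        intro r hr
        rw [hS, mem_filter, mem_Icc] at hr
        obtain ⟨⟨hr2, _⟩, hr3⟩ := hr
        unfold CB at hr3
        push Not at hr3
        obtain ⟨χ, hχ, hχV⟩ := hr3
        have hr0 : 0 < r := by omega
        have h4 : (1 : ℝ) ≤ (r : ℝ) / (Nat.totient r : ℝ) := by
          rw [one_le_div (by exact_mod_cast Nat.totient_pos.2 hr0)]
          exact_mod_cast Nat.totient_le r
        have h5 : V ^ (2 * ρ) ≤ ‖∑ n ∈ Icc 1 M, c n * χ (n : ZMod r)‖ ^ 2 := by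
          rw [← h r χ, norm_pow, ← pow_mul, mul_comm ρ 2]
          exact pow_le_pow_left₀ hV hχV.le _
        have h6 : ‖∑ n ∈ Icc 1 M, c n * χ (n : ZMod r)‖ ^ 2 ≤
            ∑ χ ∈ (univ : Finset (DirichletCharacter ℂ r)).filter (fun χ => χ.IsPrimitive),
              ‖∑ n ∈ Icc 1 M, c n * χ (n : ZMod r)‖ ^ 2 :=
          single_le_sum (f := fun χ : DirichletCharacter ℂ r =>
            ‖∑ n ∈ Icc 1 M, c n * χ (n : ZMod r)‖ ^ 2) (fun _ _ => by positivity)
            (mem_filter.2 ⟨mem_univ _, hχ⟩)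
        refine (h5.trans h6).trans ?_
        exact le_mul_of_one_le_left (sum_nonneg fun _ _ => by positivity) h4
    _ ≤ _ := by
        apply sum_le_sum_of_subset_of_nonneg
        · intro r hr
          rw [hS, mem_filter, mem_Icc] at hr
          rw [mem_Icc]
          omega
        · intro r _ _
          apply mul_nonneg (by positivity)
          exact sum_nonneg fun _ _ => by positivity

/-- the numbers -/
lemma bch_num (δ x : ℝ) (hδ : 0 < δ) (hx : Real.exp (9 / δ) ≤ x) (hx0 : 0 < x) (e : ℝ)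
    (he : e ≤ (64 / 100) * δ) : 12 * x ^ e ≤ x ^ δ := by
  have h1 : (12 : ℝ) ≤ x ^ ((36 / 100) * δ) := by
    have h2 : 9 / δ ≤ Real.log x := by
      rw [Real.le_log_iff_exp_le hx0]
      exact hx
    have h3 : (3 : ℝ) ≤ Real.log x * ((36 / 100) * δ) := by
      have := mul_le_mul_of_nonneg_right h2 (by positivity : 0 ≤ (36 / 100) * δ)
      have h4 : 9 / δ * ((36 / 100) * δ) = 81 / 25 := by
        field_simp
        norm_num
      linarith
    rw [Real.rpow_def_of_pos hx0]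
    have h5 : Real.exp 3 ≤ Real.exp (Real.log x * ((36 / 100) * δ)) := Real.exp_le_exp.2 h3
    have h6 : (12 : ℝ) ≤ Real.exp 3 := by
      have h7 := Real.exp_one_gt_d9
      have h8 : Real.exp 3 = Real.exp 1 ^ 3 := by
        rw [← Real.exp_nat_mul]
        norm_num
      rw [h8]
      have h9 : (2.5 : ℝ) ^ 3 ≤ Real.exp 1 ^ 3 := pow_le_pow_left₀ (by norm_num) (by linarith) 3
      norm_num at h9
      linarith
    linarith
  have hx1 : 1 ≤ x := by
    have : 1 ≤ Real.exp (9 / δ) := Real.one_le_exp (by positivity)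
    linarith
  calc 12 * x ^ e ≤ x ^ ((36 / 100) * δ) * x ^ ((64 / 100) * δ) := by
        apply mul_le_mul h1 (Real.rpow_le_rpow_of_exponent_le hx1 he) (by positivity) (by positivity)
    _ = x ^ δ := by
        rw [← Real.rpow_add hx0]
        congr 1
        ring

theorem t_BCH : S_BCH := by
  intro δ hδ
  refine ⟨Real.exp 10 + Real.exp (9 / δ) + 400 / δ, min (δ / 100) (1 / 8), ?_, ?_, ?_⟩
  · exact lt_min (by positivity) (by norm_num)
  · exact (min_le_left _ _).trans (by linarith)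
  intro x N E hCx hCN hE hNE
  set κ : ℝ := min (δ / 100) (1 / 8) with hκ
  have hκ0 : 0 < κ := lt_min (by positivity) (by norm_num)
  have hκδ : κ ≤ δ / 100 := min_le_left _ _
  set C : ℝ := Real.exp 10 + Real.exp (9 / δ) + 400 / δ with hC
  have hC1 : Real.exp 10 ≤ C := by
    have : 0 < Real.exp (9 / δ) := Real.exp_pos _
    have : 0 < 400 / δ := by positivity
    linarith
  have hC2 : Real.exp (9 / δ) ≤ C := by
    have : 0 < Real.exp 10 := Real.exp_pos _
    have : 0 < 400 / δ := by positivity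
    linarith
  have hC3 : 400 / δ ≤ C := by
    have : 0 < Real.exp 10 := Real.exp_pos _
    have : 0 < Real.exp (9 / δ) := Real.exp_pos _
    linarith
  have hC11 : (11 : ℝ) ≤ C := by
    have := Real.add_one_le_exp (10 : ℝ)
    linarith
  have hx0 : (0 : ℝ) < x := by linarith
  have hx1 : (1 : ℝ) ≤ x := by linarith
  set X := Real.log x with hX
  have hX10 : 10 ≤ X := by
    rw [hX, Real.le_log_iff_exp_le hx0]
    linarith
  have hlX : 1 ≤ Real.log X := by
    rw [Real.le_log_iff_exp_le (by linarith)]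
    have := Real.exp_one_lt_d9
    linarith
  set L := Real.log N with hL
  have hL1 : 1 ≤ L := by
    have h1 : 1 ≤ Real.sqrt (X * Real.log X) := by
      rw [Real.one_le_sqrt]
      nlinarith
    nlinarith
  have hN0 : 0 < N := by
    rcases Nat.eq_zero_or_pos N with h | h
    · rw [h] at hL
      simp at hL
      linarith
    · exact h
  have hN1 : (1 : ℝ) ≤ N := by exact_mod_cast hN0
  have hNpos : (0 : ℝ) < N := by linarith
  have hxn : 0 < x := by exact_mod_cast hx0
  set m : ℕ := min N x with hm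
  have hm0 : 0 < m := lt_min hN0 hxn
  have hm1 : (1 : ℝ) ≤ (m : ℝ) := by exact_mod_cast hm0
  have hmpos : (0 : ℝ) < (m : ℝ) := by linarith
  set K : ℝ := (E.card : ℝ) with hK
  have hK0 : 0 < K := by
    by_contra h
    have h1 : K = 0 := le_antisymm (not_lt.1 h) (by rw [hK]; positivity)
    rw [h1, zero_mul] at hNE
    linarith
  have hKN : (N : ℝ) * (m : ℝ) ^ (-κ) ≤ K := by
    rw [Real.rpow_neg hmpos.le, ← div_eq_mul_inv, div_le_iff₀ (by positivity)]
    exact hNE
  set V : ℝ := K * (m : ℝ) ^ (-κ) with hV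
  have hV0 : 0 < V := by positivity
  have hVN : (N : ℝ) * (m : ℝ) ^ (-(2 * κ)) ≤ V := by
    have h1 : (m : ℝ) ^ (-(2 * κ)) = (m : ℝ) ^ (-κ) * (m : ℝ) ^ (-κ) := by
      rw [← Real.rpow_add hmpos]
      congr 1
      ring
    rw [h1, ← mul_assoc, hV]
    exact mul_le_mul_of_nonneg_right hKN (by positivity)
  unfold num
  classical
  by_cases hcase : (N : ℝ) ≤ (x : ℝ) ^ 4
  · -- case N ≤ x ^ 4
    have hL4 : L ≤ 4 * X := by
      have := Real.log_le_log hNpos hcase
      rw [Real.log_pow] at this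
      exact_mod_cast this
    set ρ : ℕ := ⌈4 * X / L⌉₊ with hρ
    have hLpos : 0 < L := by linarith
    have hρ1 : 4 * X / L ≤ (ρ : ℝ) := Nat.le_ceil _
    have hρ2 : (ρ : ℝ) < 4 * X / L + 1 := Nat.ceil_lt_add_one (by positivity)
    have hρ1' : 4 * X ≤ ρ * L := by
      rw [div_le_iff₀ hLpos] at hρ1
      exact hρ1
    have hρ2' : ρ * L ≤ 4 * X + L := by
      have := mul_le_mul_of_nonneg_right hρ2.le hLpos.le
      have e : (4 * X / L + 1) * L = 4 * X + L := by field_simp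
      linarith
    have hρpos : 1 ≤ ρ := by
      rw [Nat.one_le_iff_ne_zero]
      intro h
      rw [h] at hρ1'
      simp at hρ1'
      linarith
    have hxN : (x : ℝ) ^ 4 ≤ (N : ℝ) ^ ρ := by
      rw [← Real.log_le_log_iff (by positivity) (by positivity), Real.log_pow, Real.log_pow]
      exact_mod_cast hρ1'
    obtain ⟨A, hA, hA2⟩ := Pool.Agent.H730R2.AA.moment ρ N hρpos hN0 E hE
    have h1 := bch_low E V hV0.le (N ^ ρ) x ρ (fun n => (A n : ℂ)) hA
    have h2 : ∑ n ∈ Icc 1 (N ^ ρ), ‖((A n : ℝ) : ℂ)‖ ^ 2 = ∑ n ∈ Icc 1 (N ^ ρ), A n ^ 2 := by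
      apply sum_congr rfl
      intro n _
      rw [Complex.norm_real, Real.norm_eq_abs, sq_abs]
    rw [h2] at h1
    set S := (Icc 2 (x ^ 2)).filter (fun r => ¬ CB E V r) with hS
    have h3 : (S.card : ℝ) * V ^ (2 * ρ) ≤ 12 * ((N : ℝ) ^ (2 * ρ)) * (1 + L) ^ (ρ ^ 2) := by
      have h1L : 1 ≤ 1 + L := by linarith
      calc (S.card : ℝ) * V ^ (2 * ρ) ≤ 6 * (((N ^ ρ : ℕ) : ℝ) + (x : ℝ) ^ 4) *
            ∑ n ∈ Icc 1 (N ^ ρ), A n ^ 2 := h1
        _ ≤ 6 * ((N : ℝ) ^ ρ + (N : ℝ) ^ ρ) * ((N : ℝ) * (1 + L) ^ (ρ - 1)) ^ ρ := by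
            push_cast
            gcongr
        _ ≤ 6 * ((N : ℝ) ^ ρ + (N : ℝ) ^ ρ) * ((N : ℝ) * (1 + L) ^ ρ) ^ ρ := by
            gcongr
            · omega
        _ = _ := by
            rw [mul_pow, ← pow_mul, sq, two_mul, pow_add]
            ring
    -- lower bound for V
    have h4 : (N : ℝ) ^ (2 * ρ) * (x : ℝ) ^ (-(32 * κ)) ≤ V ^ (2 * ρ) := by
      have h5 : ((N : ℝ) * (m : ℝ) ^ (-(2 * κ))) ^ (2 * ρ) ≤ V ^ (2 * ρ) :=
        pow_le_pow_left₀ (by positivity) hVN _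
      refine le_trans ?_ h5
      rw [mul_pow]
      apply mul_le_mul_of_nonneg_left _ (by positivity)
      rw [← Real.rpow_natCast ((m : ℝ) ^ (-(2 * κ))), ← Real.rpow_mul hmpos.le]
      rw [Real.rpow_def_of_pos hx0, Real.rpow_def_of_pos hmpos]
      apply Real.exp_le_exp.2
      rw [← hX]
      have hlm : Real.log (m : ℝ) ≤ L := Real.log_le_log hmpos (by exact_mod_cast min_le_left N x)
      have hlm0 : 0 ≤ Real.log (m : ℝ) := Real.log_nonneg hm1
      push_cast
      have h6 : (ρ : ℝ) * Real.log m ≤ 8 * X := by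
        calc (ρ : ℝ) * Real.log m ≤ ρ * L := by gcongr
          _ ≤ 4 * X + L := hρ2'
          _ ≤ 8 * X := by linarith
      calc X * (-(32 * κ)) = -(4 * κ * (8 * X)) := by ring
        _ ≤ -(4 * κ * ((ρ : ℝ) * Real.log m)) := by
            apply neg_le_neg
            exact mul_le_mul_of_nonneg_left h6 (by positivity)
        _ = _ := by ring
    have h5 : (S.card : ℝ) * (x : ℝ) ^ (-(32 * κ)) ≤ 12 * (1 + L) ^ (ρ ^ 2) := by
      have h6 : (S.card : ℝ) * ((N : ℝ) ^ (2 * ρ) * (x : ℝ) ^ (-(32 * κ))) ≤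
          12 * ((N : ℝ) ^ (2 * ρ)) * (1 + L) ^ (ρ ^ 2) :=
        (mul_le_mul_of_nonneg_left h4 (by positivity)).trans h3
      have h7 : (S.card : ℝ) * (x : ℝ) ^ (-(32 * κ)) * (N : ℝ) ^ (2 * ρ) ≤
          12 * (1 + L) ^ (ρ ^ 2) * (N : ℝ) ^ (2 * ρ) := by
        linarith
      exact le_of_mul_le_mul_right h7 (by positivity)
    have h6 : (1 + L) ^ (ρ ^ 2) ≤ (x : ℝ) ^ ((32 / 100) * δ) := by
      rw [← Real.log_le_log_iff (by positivity) (by positivity), Real.log_pow,
        Real.log_rpow hx0, ← hX]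
      have h7 : Real.log (1 + L) ≤ 2 * Real.log X := by
        have h8 : 2 * Real.log X = Real.log (X ^ 2) := by
          rw [Real.log_pow]
          norm_num
        rw [h8]
        apply Real.log_le_log (by linarith)
        nlinarith
      have h8 : (ρ : ℝ) * L ≤ 8 * X := by linarith
      have h9 : C ^ 2 * (X * Real.log X) ≤ L ^ 2 := by
        have hs : 0 ≤ X * Real.log X := by positivity
        have h10 : (C * Real.sqrt (X * Real.log X)) ^ 2 ≤ L ^ 2 :=
          pow_le_pow_left₀ (by positivity) hCN 2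
        rw [mul_pow, Real.sq_sqrt hs] at h10
        exact h10
      have h10 : (ρ : ℝ) ^ 2 * L ^ 2 ≤ 64 * X ^ 2 := by
        have h10a : ((ρ : ℝ) * L) ^ 2 ≤ (8 * X) ^ 2 := pow_le_pow_left₀ (by positivity) h8 2
        calc (ρ : ℝ) ^ 2 * L ^ 2 = ((ρ : ℝ) * L) ^ 2 := by ring
          _ ≤ (8 * X) ^ 2 := h10a
          _ = 64 * X ^ 2 := by ring
      have h11 : (ρ : ℝ) ^ 2 * (C ^ 2 * (X * Real.log X)) ≤ 64 * X ^ 2 :=
        (mul_le_mul_of_nonneg_left h9 (by positivity)).trans h10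
      have h12 : (ρ : ℝ) ^ 2 * Real.log X * C ^ 2 ≤ 64 * X := by
        have hXp : 0 < X := by linarith
        have h12a : (ρ : ℝ) ^ 2 * Real.log X * C ^ 2 * X ≤ 64 * X * X := by
          calc (ρ : ℝ) ^ 2 * Real.log X * C ^ 2 * X = (ρ : ℝ) ^ 2 * (C ^ 2 * (X * Real.log X)) := by ring
            _ ≤ 64 * X ^ 2 := h11
            _ = 64 * X * X := by ring
        exact le_of_mul_le_mul_right h12a hXp
      have h13 : 400 / δ ≤ C ^ 2 := by
        refine hC3.trans ?_
        rw [sq]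
        exact le_mul_of_one_le_left (by linarith) (by linarith)
      have h14 : (ρ : ℝ) ^ 2 * Real.log X * (400 / δ) ≤ 64 * X :=
        (mul_le_mul_of_nonneg_left h13 (by positivity)).trans h12
      have h15 : (ρ : ℝ) ^ 2 * Real.log X ≤ (16 / 100) * δ * X := by
        have e : (ρ : ℝ) ^ 2 * Real.log X * (400 / δ) * (δ / 400) = (ρ : ℝ) ^ 2 * Real.log X := by
          field_simp
        rw [← e]
        refine (mul_le_mul_of_nonneg_right h14 (by positivity : 0 ≤ δ / 400)).trans (le_of_eq ?_)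
        ring
      calc ((ρ ^ 2 : ℕ) : ℝ) * Real.log (1 + L) ≤ ((ρ ^ 2 : ℕ) : ℝ) * (2 * Real.log X) := by
            gcongr
        _ = 2 * ((ρ : ℝ) ^ 2 * Real.log X) := by
            push_cast
            ring
        _ ≤ 2 * ((16 / 100) * δ * X) := by linarith
        _ = _ := by ring
    have h7 : (S.card : ℝ) ≤ 12 * (x : ℝ) ^ (32 * κ + (32 / 100) * δ) := by
      have h8 : (S.card : ℝ) * (x : ℝ) ^ (-(32 * κ)) ≤ 12 * (x : ℝ) ^ ((32 / 100) * δ) := by
        linarith
      rw [Real.rpow_neg hx0.le, ← div_eq_mul_inv, div_le_iff₀ (by positivity)] at h8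
      rw [Real.rpow_add hx0]
      linarith
    have h8 := bch_num δ x hδ (hC2.trans hCx) hx0 (32 * κ + (32 / 100) * δ) (by linarith)
    have h9 := h7.trans h8
    refine le_trans (le_of_eq ?_) h9
    rw [hS]
    congr!
  · -- case x ^ 4 < N
    push Not at hcase
    have hmx : m = x := by
      rw [hm]
      apply min_eq_right
      have h1 : (x : ℝ) ≤ (x : ℝ) ^ 4 := le_self_pow₀ hx1 (by norm_num)
      have h2 : (x : ℝ) ≤ N := by linarith
      exact_mod_cast h2
    have h1 := bch_low E V hV0.le N x 1 (fun n => if n ∈ E then 1 else 0) (by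
      intro q χ
      rw [pow_one, ← sum_subset hE]
      · apply sum_congr rfl
        intro a ha
        simp [ha]
      · intro a _ ha
        simp [ha])
    have h2 : ∑ n ∈ Icc 1 N, ‖(if n ∈ E then (1 : ℂ) else 0)‖ ^ 2 = K := by
      rw [← sum_subset hE]
      · rw [hK, card_eq_sum_ones]
        push_cast
        apply sum_congr rfl
        intro a ha
        simp [ha]
      · intro a _ ha
        simp [ha]
    rw [h2] at h1
    set S := (Icc 2 (x ^ 2)).filter (fun r => ¬ CB E V r) with hS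
    have h3 : (S.card : ℝ) * V ^ 2 ≤ 12 * N * K := by
      calc (S.card : ℝ) * V ^ 2 = (S.card : ℝ) * V ^ (2 * 1) := by norm_num
        _ ≤ 6 * ((N : ℝ) + (x : ℝ) ^ 4) * K := h1
        _ ≤ 6 * ((N : ℝ) + N) * K := by gcongr
        _ = _ := by ring
    have h4 : V ^ 2 = K * (K * (x : ℝ) ^ (-(2 * κ))) := by
      have e : (x : ℝ) ^ (-(2 * κ)) = (x : ℝ) ^ (-κ) * (x : ℝ) ^ (-κ) := by
        rw [← Real.rpow_add hx0]
        congr 1
        ring
      rw [hV, hmx, e]
      ring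
    have h5 : (S.card : ℝ) * (K * (x : ℝ) ^ (-(2 * κ))) ≤ 12 * N := by
      rw [h4] at h3
      have h6 : (S.card : ℝ) * (K * (x : ℝ) ^ (-(2 * κ))) * K ≤ 12 * N * K := by linarith
      exact le_of_mul_le_mul_right h6 hK0
    have h6 : (S.card : ℝ) * ((N : ℝ) * (x : ℝ) ^ (-κ) * (x : ℝ) ^ (-(2 * κ))) ≤ 12 * N := by
      refine le_trans ?_ h5
      apply mul_le_mul_of_nonneg_left _ (by positivity)
      apply mul_le_mul_of_nonneg_right _ (by positivity)
      rw [← hmx]
      exact hKN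
    have h7 : (S.card : ℝ) ≤ 12 * (x : ℝ) ^ (3 * κ) := by
      have e : (x : ℝ) ^ (-κ) * (x : ℝ) ^ (-(2 * κ)) = ((x : ℝ) ^ (3 * κ))⁻¹ := by
        rw [← Real.rpow_add hx0, ← Real.rpow_neg hx0.le]
        congr 1
        ring
      have h8 : (S.card : ℝ) * ((x : ℝ) ^ (3 * κ))⁻¹ * N ≤ 12 * N := by
        rw [← e]
        linarith
      have h9 := le_of_mul_le_mul_right h8 hNpos
      rw [← div_eq_mul_inv, div_le_iff₀ (by positivity)] at h9
      exact h9
    have h8 := bch_num δ x hδ (hC2.trans hCx) hx0 (3 * κ) (by linarith)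
    have h9 := h7.trans h8
    refine le_trans (le_of_eq ?_) h9
    rw [hS]
    congr!

end Pool.Agent.Q145.ART
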