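import Mathlib
import Pool.Agent.Q145.ART.Stm

set_option autoImplicit false

/-! # ART-TAU: few shifted primes have many divisors -/

namespace Pool.Agent.Q145.ART

open Finset

open Pool.Agent.H730R2.AA.Tau in
lemma tau_two_card (n : ℕ) : tau 2 n = (n.divisors.card : ℝ) := by
  rw [tau_succ_apply]
  have : ∀ d ∈ n.divisors, tau 1 d = 1 := by
    intro d hd
    rw [tau_succ_apply]
    simp_rw [tau_zero_apply]
    have hd0 := Nat.pos_of_mem_divisors hd
    rw [sum_eq_single_of_mem 1 (by rw [Nat.mem_divisors]; exact ⟨one_dvd _, by omega⟩)]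
    · simp
    · intro b _ hb
      simp [hb]
  rw [sum_congr rfl this]
  simp

open Pool.Agent.H730R2.AA.Tau in
lemma card_sq_le_tau_four (n : ℕ) : ((n.divisors.card : ℝ)) ^ 2 ≤ tau 4 n := by
  have h4 : tau 4 n = ∑ x ∈ n.divisorsAntidiagonal, tau 2 x.1 * tau 2 x.2 := by
    rw [← ArithmeticFunction.mul_apply]
    unfold tau
    rw [← pow_add]
  rw [h4]
  have h1 : ((n.divisors.card : ℝ)) ^ 2 = ∑ x ∈ n.divisorsAntidiagonal, tau 2 n := by
    rw [sum_const, tau_two_card, nsmul_eq_mul, sq]
    congr 2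
    rw [← Nat.map_div_right_divisors]
    simp
  rw [h1]
  apply sum_le_sum
  intro x hx
  rw [Nat.mem_divisorsAntidiagonal] at hx
  rw [← hx.1]
  exact tau_submul 2 _ _

open Pool.Agent.H730R2.AA.Tau in
lemma sum_card_sq (x : ℕ) (hx : 1 ≤ x) :
    ∑ n ∈ Icc 1 x, ((n.divisors.card : ℝ)) ^ 2 ≤ x * (1 + Real.log x) ^ 3 :=
  (sum_le_sum fun n _ => card_sq_le_tau_four n).trans (tau_sum 3 x hx)

theorem t_TAU : S_TAU := by
  intro A hA
  refine ⟨(A + 4) / 2, Real.exp 8, by linarith, ?_⟩
  intro x hx
  have hx0 : (0 : ℝ) < x := lt_of_lt_of_le (Real.exp_pos 8) hx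
  have hx1 : 1 ≤ x := by
    have : 0 < x := by exact_mod_cast hx0
    omega
  have hl : (8 : ℝ) ≤ Real.log x := by
    rw [Real.le_log_iff_exp_le hx0]
    exact hx
  set L := Real.log x with hL
  have hLpos : 0 < L := by linarith
  unfold num
  classical
  set S := (PP x).filter (fun p => L ^ ((A + 4) / 2) < tt p) with hS
  have key : (S.card : ℝ) * L ^ (A + 4) ≤ x * (1 + L) ^ 3 := by
    calc (S.card : ℝ) * L ^ (A + 4) = ∑ p ∈ S, L ^ (A + 4) := by
          rw [sum_const, nsmul_eq_mul]
      _ ≤ ∑ p ∈ S, ((p - 1).divisors.card : ℝ) ^ 2 := by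
          apply sum_le_sum
          intro p hp
          rw [hS, mem_filter] at hp
          have h1 := hp.2.le
          unfold tt at h1
          have h2 : L ^ (A + 4) = (L ^ ((A + 4) / 2)) ^ 2 := by
            rw [← Real.rpow_natCast, ← Real.rpow_mul hLpos.le]
            congr 1
            push_cast
            ring
          rw [h2]
          exact pow_le_pow_left₀ (by positivity) h1 2
      _ ≤ ∑ n ∈ Icc 1 x, (n.divisors.card : ℝ) ^ 2 := by
          have hinj : Set.InjOn (fun p : ℕ => p - 1) (S : Set ℕ) := by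
            intro p hp q hq h
            simp only [hS, coe_filter, Set.mem_setOf_eq, PP, mem_filter] at hp hq
            have h1 := hp.1.2.two_le
            have h2 := hq.1.2.two_le
            simp only at h
            omega
          rw [← sum_image (s := S) (g := fun p : ℕ => p - 1)
            (f := fun n : ℕ => (n.divisors.card : ℝ) ^ 2) hinj]
          apply sum_le_sum_of_subset_of_nonneg
          · intro n hn
            rw [mem_image] at hn
            obtain ⟨p, hp, rfl⟩ := hn
            simp only [hS, PP, mem_filter, mem_range] at hp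
            have h1 := hp.1.2.two_le
            rw [mem_Icc]
            omega
          · intro _ _ _
            positivity
      _ ≤ _ := sum_card_sq x hx1
  have h3 : (1 + L) ^ 3 ≤ L ^ 4 := by
    have h4 : (1 + L) ^ 3 ≤ (2 * L) ^ 3 := pow_le_pow_left₀ (by linarith) (by linarith) 3
    nlinarith [pow_pos hLpos 3]
  have h5 : L ^ (A + 4) = L ^ A * L ^ 4 := by
    rw [Real.rpow_add hLpos]
    congr 1
    exact_mod_cast Real.rpow_natCast L 4
  rw [le_div_iff₀ (by positivity)]
  have h6 : (S.card : ℝ) * L ^ A * L ^ 4 ≤ x * L ^ 4 := by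
    calc (S.card : ℝ) * L ^ A * L ^ 4 = (S.card : ℝ) * L ^ (A + 4) := by rw [h5]; ring
      _ ≤ x * (1 + L) ^ 3 := key
      _ ≤ x * L ^ 4 := mul_le_mul_of_nonneg_left h3 hx0.le
  have h7 := le_of_mul_le_mul_right h6 (by positivity)
  convert h7 using 2

end Pool.Agent.Q145.ART
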